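import Pool.Agent.H97R3.VR.Main

/-!
# Convex hulls of quasiconvex sets in median graphs
-/

set_option autoImplicit false

namespace Pool.Agent.H97R3.VR

section half

variable {V : Type} {X : SimpleGraph V}

/-- `u` is closer to `x` than to `y` -/
def Wh (X : SimpleGraph V) (x y u : V) : Prop := X.dist u x < X.dist u y

theorem Wh.not {x y u : V} (h : Wh X x y u) : ¬ Wh X y x u := by
  unfold Wh at *
  omega

theorem Wh.of_not (hX : IsMedian X) {x y u : V} (hxy : X.Adj x y) (h : ¬ Wh X x y u) :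
    Wh X y x u := by
  unfold Wh at *
  have := dist_step hX u hxy
  omega

theorem Square.flip {x y b a : V} (h : Square X x y b a) : Square X y x a b :=
  ⟨h.xy.symm, h.zx.symm, h.wz.symm, h.yw.symm, h.ne', h.ne⟩

theorem sq_half (hX : IsMedian X) {x y b a : V} (h : Square X x y b a) {z : V}
    (hz : Wh X x y z) : Wh X a b z := by
  unfold Wh at *
  have d1 := dist_step hX z h.xy
  have d2 := dist_step hX z h.yw
  have d3 := dist_step hX z h.zx
  have d4 := dist_step hX z h.wz
  by_contra hcon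
  obtain ⟨w, hw1, hw2, hw3⟩ := qc hX (u := z) (x := y) (y := x) (z := b) (n := X.dist z x)
    h.xy.symm h.yw h.ne rfl (by omega)
  have hya := dist_two hX h.xy h.zx.symm h.ne'
  have hyw : y ≠ w := fun e => by rw [← e] at hw3; omega
  have haw : a ≠ w := fun e => by rw [← e] at hw3; omega
  have hyw2 := dist_two hX h.xy hw1.symm hyw
  have haw2 := dist_two hX h.zx.symm hw1.symm haw
  refine h.ne ((hX.med y a w).unique (y₁ := x) (y₂ := b) ?_ ?_)
  · unfold Btw
    rw [adj_one h.xy.symm, adj_one h.zx.symm, adj_one h.zx, adj_one hw1.symm, hya, haw2, hyw2]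
    exact ⟨rfl, rfl, rfl⟩
  · unfold Btw
    rw [adj_one h.yw, adj_one h.wz, adj_one h.wz.symm, adj_one hw2.symm, hya, haw2, hyw2]
    exact ⟨rfl, rfl, rfl⟩

theorem sq_half_iff (hX : IsMedian X) {x y b a : V} (h : Square X x y b a) (z : V) :
    Wh X x y z ↔ Wh X a b z := by
  refine ⟨sq_half hX h, fun h1 => ?_⟩
  by_contra h2
  exact (sq_half hX h.flip (Wh.of_not hX h.xy h2)).not h1

theorem ladder (hX : IsMedian X) {x y : V} (hxy : X.Adj x y) (k : ℕ) :
    ∀ a b : V, X.Adj a b → X.dist x a = k → Wh X x y a → Wh X y x b →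
      ∀ z, Wh X x y z ↔ Wh X a b z := by
  induction k with
  | zero =>
    intro a b hab hk ha hb z
    have h1 : x = a := hX.conn.dist_eq_zero_iff.1 hk
    subst h1
    have h2 := dist_step hX b hxy
    have h3 : X.dist b x = 1 := adj_one hab.symm
    unfold Wh at hb
    have h4 : X.dist b y = 0 := by omega
    have h5 : b = y := hX.conn.dist_eq_zero_iff.1 h4
    rw [h5]
  | succ k ih =>
    intro a b hab hk ha hb z
    unfold Wh at ha hb
    have e1 : X.dist a x = X.dist x a := SimpleGraph.dist_comm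
    have e2 : X.dist b x = X.dist x b := SimpleGraph.dist_comm
    have e3 : X.dist a y = X.dist y a := SimpleGraph.dist_comm
    have e4 : X.dist b y = X.dist y b := SimpleGraph.dist_comm
    have s1 := dist_step hX a hxy
    have s2 := dist_step hX b hxy
    have s3 := dist_step hX x hab
    have s4 := dist_step hX y hab
    obtain ⟨a', ha1, ha2⟩ := exists_pred hX.conn hk
    have e5 : X.dist a' x = X.dist x a' := SimpleGraph.dist_comm
    have e6 : X.dist a' y = X.dist y a' := SimpleGraph.dist_comm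
    have s5 := dist_step hX a' hxy
    have s6 := dist_step hX y ha1
    have hne : a' ≠ b := fun e => by subst e; omega
    obtain ⟨b', hb1, hb2, hb3⟩ := qc hX (u := y) (x := a) (y := a') (z := b) (n := k + 1)
      ha1.symm hab hne (by omega) (by omega)
    have e7 : X.dist b' x = X.dist x b' := SimpleGraph.dist_comm
    have e8 : X.dist b' y = X.dist y b' := SimpleGraph.dist_comm
    have s7 := dist_step hX b' hxy
    have s8 := dist_step hX x hb2
    have hsq : Square X a' b' b a :=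
      ⟨hb1.symm, hb2, hab.symm, ha1.symm, hne, fun e => by rw [e] at hb3; omega⟩
    rw [ih a' b' hb1.symm ha2 (by unfold Wh; omega) (by unfold Wh; omega) z]
    exact sq_half_iff hX hsq z

theorem cross (hX : IsMedian X) {x y : V} (hxy : X.Adj x y) (n : ℕ) :
    ∀ m u : V, X.dist u m = n → Wh X y x m → Wh X x y u → ∃ a b, X.Adj a b ∧ Wh X x y a ∧
      Wh X y x b ∧ X.dist u m = X.dist b m + 1 + X.dist u a := by
  induction n with
  | zero =>
    intro m u h hm hu
    have : u = m := hX.conn.dist_eq_zero_iff.1 h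
    rw [this] at hu
    exact absurd hu hm.not
  | succ n ih =>
    intro m u h hm hu
    obtain ⟨m', h1, h2⟩ := exists_pred hX.conn h
    by_cases hc : Wh X x y m'
    · refine ⟨m', m, h1, hc, hm, ?_⟩
      rw [SimpleGraph.dist_self]
      omega
    · obtain ⟨a, b, hab, ha, hb, he⟩ := ih m' u h2 (Wh.of_not hX hxy hc) hu
      refine ⟨a, b, hab, ha, hb, ?_⟩
      have t1 : X.dist b m ≤ X.dist b m' + X.dist m' m := hX.conn.dist_triangle
      rw [adj_one h1] at t1
      have t2 : X.dist u m ≤ X.dist u a + X.dist a m := hX.conn.dist_triangle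
      have t3 : X.dist a m ≤ X.dist a b + X.dist b m := hX.conn.dist_triangle
      rw [adj_one hab] at t3
      omega

theorem half_convex (hX : IsMedian X) {x y : V} (hxy : X.Adj x y) {u v m : V}
    (hu : Wh X x y u) (hv : Wh X x y v) (hm : Btw X u v m) : Wh X x y m := by
  by_contra hc
  obtain ⟨a, b, hab, ha, hb, he⟩ := cross hX hxy _ m u rfl (Wh.of_not hX hxy hc) hu
  have h1 := (ladder hX hxy _ a b hab rfl ha hb v).1 hv
  unfold Wh at h1
  unfold Btw at hm
  have t1 : X.dist v b ≤ X.dist v m + X.dist m b := hX.conn.dist_triangle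
  have t2 : X.dist u v ≤ X.dist u a + X.dist a v := hX.conn.dist_triangle
  have e1 : X.dist v m = X.dist m v := SimpleGraph.dist_comm
  have e2 : X.dist m b = X.dist b m := SimpleGraph.dist_comm
  have e3 : X.dist a v = X.dist v a := SimpleGraph.dist_comm
  omega

/-- the convex hull -/
def hull (X : SimpleGraph V) (S : Set V) : Set V := {v | ∀ C, IsConvex X C → S ⊆ C → v ∈ C}

theorem hull_convex (S : Set V) : IsConvex X (hull X S) :=
  fun u hu v hv m hm C hC hS => hC u (hu C hC hS) v (hv C hC hS) m hm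

theorem subset_hull (S : Set V) : S ⊆ hull X S := fun _ hv _ _ hS => hS hv

theorem half_isConvex (hX : IsMedian X) {x y : V} (hxy : X.Adj x y) :
    IsConvex X {u | Wh X x y u} := fun _ hu _ hv _ hm => half_convex hX hxy hu hv hm

/-- the `i`-th point of a geodesic from `s` to `v` -/
noncomputable def gp (X : SimpleGraph V) (v s : V) (i : ℕ) : V := (prd X v)^[i] s

theorem gp_succ (v s : V) (i : ℕ) : gp X v s (i + 1) = prd X v (gp X v s i) :=
  Function.iterate_succ_apply' _ _ _

theorem gp_dist (hX : IsMedian X) {v s : V} {r : ℕ} (hr : X.dist v s = r) :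
    ∀ i ≤ r, X.dist v (gp X v s i) + i = r := by
  intro i
  induction i with
  | zero =>
    intro _
    show X.dist v s + 0 = r
    omega
  | succ i ih =>
    intro hi
    have h1 := ih (by omega)
    obtain ⟨j, hj⟩ : ∃ j, X.dist v (gp X v s i) = j + 1 := ⟨r - i - 1, by omega⟩
    have h2 := (prd_spec hX.conn hj).2
    rw [gp_succ, h2]
    omega

theorem gp_adj (hX : IsMedian X) {v s : V} {r : ℕ} (hr : X.dist v s = r) {i : ℕ} (hi : i < r) :
    X.Adj (gp X v s i) (gp X v s (i + 1)) := by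
  have h1 := gp_dist hX hr i hi.le
  obtain ⟨j, hj⟩ : ∃ j, X.dist v (gp X v s i) = j + 1 := ⟨r - i - 1, by omega⟩
  rw [gp_succ]
  exact (prd_spec hX.conn hj).1.symm

theorem gp_le (hX : IsMedian X) {v s : V} {r : ℕ} (hr : X.dist v s = r) (i : ℕ) :
    ∀ j, i + j ≤ r → X.dist (gp X v s i) (gp X v s (i + j)) ≤ j := by
  intro j
  induction j with
  | zero => intro _; rw [add_zero, SimpleGraph.dist_self]
  | succ j ih =>
    intro hj
    have h1 := ih (by omega)
    have h2 := adj_one (gp_adj hX hr (i := i + j) (by omega))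
    have h3 : X.dist (gp X v s i) (gp X v s (i + j + 1)) ≤ X.dist (gp X v s i) (gp X v s (i + j)) +
      X.dist (gp X v s (i + j)) (gp X v s (i + j + 1)) := hX.conn.dist_triangle
    rw [← add_assoc]
    omega

theorem gp_eq (hX : IsMedian X) {v s : V} {r : ℕ} (hr : X.dist v s = r) (i j : ℕ)
    (h : i + j ≤ r) : X.dist (gp X v s i) (gp X v s (i + j)) = j := by
  have h1 := gp_le hX hr i j h
  have h2 := gp_dist hX hr i (by omega)
  have h3 := gp_dist hX hr (i + j) h
  have h4 : X.dist v (gp X v s i) ≤ X.dist v (gp X v s (i + j)) +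
    X.dist (gp X v s (i + j)) (gp X v s i) := hX.conn.dist_triangle
  have h5 : X.dist (gp X v s (i + j)) (gp X v s i) = X.dist (gp X v s i) (gp X v s (i + j)) :=
    SimpleGraph.dist_comm
  omega

theorem key_step (hX : IsMedian X) {S : Set V} {κ : ℕ}
    (hS : ∀ s ∈ S, ∀ s' ∈ S, ∀ m, Btw X s s' m → ∃ t ∈ S, X.dist m t ≤ κ)
    {v : V} (hv : v ∈ hull X S) {s0 : V} (hs0 : s0 ∈ S) (hmin : ∀ s ∈ S, X.dist v s0 ≤ X.dist v s)
    (B : Finset V) (hB : ∀ u, X.dist s0 u ≤ κ → u ∈ B) {x y : V} (hxy : X.Adj x y)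
    (hvW : Wh X y x v) (hs0W : Wh X x y s0) : ∃ e : V × V, e ∈ B ×ˢ B ∧ X.Adj e.1 e.2 ∧
      Wh X x y e.1 ∧ Wh X y x e.2 := by
  obtain ⟨s, hs, hsW⟩ : ∃ s ∈ S, Wh X y x s := by
    by_contra hcon
    push Not at hcon
    have h1 : v ∈ {u | Wh X x y u} := hv _ (half_isConvex hX hxy) fun s hs =>
      Wh.of_not hX hxy.symm (hcon s hs)
    exact hvW.not h1
  obtain ⟨m, ⟨hm1, hm2, hm3⟩, -⟩ := hX.med s0 s v
  have hmW : Wh X y x m := half_convex hX hxy.symm hsW hvW hm2
  obtain ⟨t, ht, htm⟩ := hS s0 hs0 s hs m hm1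
  have h2 := hmin t ht
  have h3 : X.dist v t ≤ X.dist v m + X.dist m t := hX.conn.dist_triangle
  unfold Btw at hm3
  have e1 : X.dist s0 v = X.dist v s0 := SimpleGraph.dist_comm
  have e2 : X.dist m v = X.dist v m := SimpleGraph.dist_comm
  have h4 : X.dist s0 m ≤ κ := by omega
  obtain ⟨a, b, hab, ha, hb, he⟩ := cross hX hxy _ m s0 rfl hmW hs0W
  refine ⟨(a, b), Finset.mem_product.2 ⟨hB a (by omega), hB b ?_⟩, hab, ha, hb⟩
  have h5 : X.dist s0 b ≤ X.dist s0 a + X.dist a b := hX.conn.dist_triangle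
  rw [adj_one hab] at h5
  omega

/-- the hull of a quasiconvex set is near the set -/
theorem hull_near (hX : IsMedian X) {S : Set V} {κ : ℕ}
    (hS : ∀ s ∈ S, ∀ s' ∈ S, ∀ m, Btw X s s' m → ∃ t ∈ S, X.dist m t ≤ κ)
    {v : V} (hv : v ∈ hull X S) {s0 : V} (hs0 : s0 ∈ S) (hmin : ∀ s ∈ S, X.dist v s0 ≤ X.dist v s)
    (B : Finset V) (hB : ∀ u, X.dist s0 u ≤ κ → u ∈ B) : X.dist v s0 ≤ B.card * B.card := by
  classical
  have : Nonempty V := ⟨v⟩
  obtain ⟨r, hr'⟩ : ∃ r, X.dist v s0 = r := ⟨_, rfl⟩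
  rw [hr']
  have key : ∀ i, i < r → ∃ e : V × V, e ∈ B ×ˢ B ∧ X.Adj e.1 e.2 ∧
      Wh X (gp X v s0 i) (gp X v s0 (i + 1)) e.1 ∧ Wh X (gp X v s0 (i + 1)) (gp X v s0 i) e.2 := by
    intro i hi
    have d1 := gp_dist hX hr' i hi.le
    have d2 := gp_dist hX hr' (i + 1) (by omega)
    have g1 := gp_eq hX hr' 0 i (by omega)
    have g2 := gp_eq hX hr' 0 (i + 1) (by omega)
    rw [zero_add] at g1 g2
    have g0 : gp X v s0 0 = s0 := rfl
    rw [g0] at g1 g2
    refine key_step hX hS hv hs0 hmin B hB (gp_adj hX hr' hi) ?_ ?_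
    · unfold Wh
      omega
    · unfold Wh
      omega
  choose! e he1 he2 he3 he4 using key
  have hcard : (Finset.range r).card ≤ (B ×ˢ B).card := by
    refine Finset.card_le_card_of_injOn e (fun i hi => he1 i (by simpa using hi)) ?_
    have hlt : ∀ i j, i < j → j < r → e i ≠ e j := by
      intro i j hij hj heq
      have hi : i < r := by omega
      have l1 := ladder hX (gp_adj hX hr' hi) _ _ _ (he2 i hi) rfl (he3 i hi) (he4 i hi)
        (gp X v s0 j)
      have l2 := ladder hX (gp_adj hX hr' hj) _ _ _ (he2 j hj) rfl (he3 j hj) (he4 j hj)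
        (gp X v s0 j)
      rw [heq] at l1
      have h1 : Wh X (gp X v s0 j) (gp X v s0 (j + 1)) (gp X v s0 j) := by
        unfold Wh
        rw [SimpleGraph.dist_self, adj_one (gp_adj hX hr' hj)]
        exact one_pos
      have h2 := l1.2 (l2.1 h1)
      unfold Wh at h2
      obtain ⟨k, rfl⟩ : ∃ k, j = i + 1 + k := ⟨j - i - 1, by omega⟩
      have g1 := gp_eq hX hr' i (1 + k) (by omega)
      have g2 := gp_eq hX hr' (i + 1) k (by omega)
      rw [← add_assoc] at g1
      rw [SimpleGraph.dist_comm, g1, SimpleGraph.dist_comm, g2] at h2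
      omega
    intro i hi j hj heq
    have hi' : i < r := by simpa using hi
    have hj' : j < r := by simpa using hj
    rcases lt_trichotomy i j with h | h | h
    · exact absurd heq (hlt i j h hj')
    · exact h
    · exact absurd heq.symm (hlt j i h hi')
  rwa [Finset.card_range, Finset.card_product] at hcard

theorem ball_finite (hX : X.Connected) (hloc : ∀ v, (X.neighborSet v).Finite) (v : V) (n : ℕ) :
    {u | X.dist v u ≤ n}.Finite := by
  induction n with
  | zero =>
    refine (Set.finite_singleton v).subset fun u hu => ?_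
    have h1 : X.dist v u = 0 := Nat.le_zero.1 hu
    exact (hX.dist_eq_zero_iff.1 h1).symm
  | succ n ih =>
    refine (ih.union (ih.biUnion fun w _ => hloc w)).subset fun u hu => ?_
    by_cases h : X.dist v u ≤ n
    · exact Or.inl h
    · right
      have h1 : X.dist v u = n + 1 := by
        have : X.dist v u ≤ n + 1 := hu
        omega
      obtain ⟨w, hw1, hw2⟩ := exists_pred hX h1
      exact Set.mem_biUnion (show w ∈ {u | X.dist v u ≤ n} from hw2.le) hw1

end half

section final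

variable {V G : Type} [Group G] [MulAction G V] {X : SimpleGraph V} {N : Subgroup G}

theorem dist_smul_le (hX : X.Connected)
    (hG : ∀ (g : G) (x y : V), X.Adj x y → X.Adj (g • x) (g • y)) (g : G) (x y : V) :
    X.dist (g • x) (g • y) ≤ X.dist x y := by
  obtain ⟨p, hp⟩ := hX.exists_walk_length_eq_dist x y
  let f : X →g X := ⟨fun v => g • v, fun h => hG g _ _ h⟩
  rw [← hp, ← SimpleGraph.Walk.length_map f p]
  exact SimpleGraph.dist_le _

theorem dist_smul (hX : X.Connected)
    (hG : ∀ (g : G) (x y : V), X.Adj x y → X.Adj (g • x) (g • y)) (g : G) (x y : V) :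
    X.dist (g • x) (g • y) = X.dist x y := by
  refine le_antisymm (dist_smul_le hX hG g x y) ?_
  have h := dist_smul_le hX hG g⁻¹ (g • x) (g • y)
  rwa [inv_smul_smul, inv_smul_smul] at h

/-- a subgroup with a quasiconvex orbit is a virtual retract -/
theorem quasiconvex (hX : IsMedian X) (hloc : ∀ v, (X.neighborSet v).Finite)
    (hG : ∀ (g : G) (x y : V), X.Adj x y → X.Adj (g • x) (g • y)) [N.FiniteIndex]
    (hN : IsSpecialAction X N) (H : Subgroup G) (x0 : V) (κ : ℕ)
    (hH : ∀ h ∈ H, ∀ m, Btw X x0 (h • x0) m → ∃ h' ∈ H, X.dist m (h' • x0) ≤ κ) :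
    IsVirtualRetract H := by
  classical
  have hd := dist_smul hX.conn hG
  set S : Set V := {v | ∃ h ∈ H, v = h • x0} with hSdef
  have hx0 : x0 ∈ S := ⟨1, H.one_mem, by rw [one_smul]⟩
  have hSH : ∀ h ∈ H, ∀ s ∈ S, h • s ∈ S := by
    rintro h hh s ⟨k, hk, rfl⟩
    exact ⟨h * k, H.mul_mem hh hk, (mul_smul _ _ _).symm⟩
  have hS : ∀ s ∈ S, ∀ s' ∈ S, ∀ m, Btw X s s' m → ∃ t ∈ S, X.dist m t ≤ κ := by
    rintro s ⟨h1, hh1, rfl⟩ s' ⟨h2, hh2, rfl⟩ m hm
    obtain ⟨h', hh', h3⟩ := hH (h1⁻¹ * h2) (H.mul_mem (H.inv_mem hh1) hh2) (h1⁻¹ • m) (by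
      unfold Btw at hm ⊢
      rw [← hd h1 x0 (h1⁻¹ • m), ← hd h1 (h1⁻¹ • m), ← hd h1 x0, smul_inv_smul, mul_smul,
        smul_inv_smul]
      exact hm)
    refine ⟨h1 • (h' • x0), hSH h1 hh1 _ ⟨h', hh', rfl⟩, ?_⟩
    rw [← hd h1, smul_inv_smul] at h3
    exact h3
  have hconv : IsConvex X (hull X S) := hull_convex S
  have hinv : ∀ h ∈ H, ∀ v ∈ hull X S, h • v ∈ hull X S := by
    intro h hh v hv C hC hSC
    refine hv {u | h • u ∈ C} ?_ ?_
    · intro a ha b hb m hm
      refine hC _ ha _ hb _ ?_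
      unfold Btw at hm ⊢
      rw [hd, hd, hd]
      exact hm
    · intro s hs
      exact hSC (hSH h hh s hs)
  have hB : {u | X.dist x0 u ≤ κ}.Finite := ball_finite hX.conn hloc x0 κ
  set B := hB.toFinset with hBdef
  set R := B.card * B.card with hR
  have D : Dat X N H (hull X S) := ⟨hX, hG, hN, hconv, hinv⟩
  refine main' D ⟨x0, subset_hull S hx0⟩ {u | X.dist x0 u ≤ R} (ball_finite hX.conn hloc x0 R) ?_
  intro v hv
  obtain ⟨s0, hs0, hmin⟩ : ∃ s0 ∈ S, ∀ s ∈ S, X.dist v s0 ≤ X.dist v s := by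
    have hex : ∃ n, ∃ s ∈ S, X.dist v s = n := ⟨_, x0, hx0, rfl⟩
    obtain ⟨s0, hs0, h0⟩ := Nat.find_spec hex
    refine ⟨s0, hs0, fun s hs => ?_⟩
    rw [h0]
    exact Nat.find_min' hex ⟨s, hs, rfl⟩
  obtain ⟨h, hh, rfl⟩ := hs0
  refine ⟨h⁻¹, H.inv_mem hh, ?_⟩
  have h1 : X.dist (h⁻¹ • v) x0 ≤ B.card * B.card := by
    refine hull_near hX hS (hinv h⁻¹ (H.inv_mem hh) v hv) hx0 ?_ B ?_
    · intro s hs
      rw [← hd h, smul_inv_smul, ← hd h (h⁻¹ • v) s, smul_inv_smul]
      exact hmin _ (hSH h hh s hs)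
    · intro u hu
      exact hB.mem_toFinset.2 hu
  show X.dist x0 (h⁻¹ • v) ≤ R
  rw [SimpleGraph.dist_comm]
  exact h1

end final

end Pool.Agent.H97R3.VR
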