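import Mathlib

/-!
# Special actions on CAT(0) cube complexes and virtual retracts

CAT(0) cube complexes are described by their 1-skeleta, the median graphs.
-/

set_option autoImplicit false

namespace Pool.Agent.H97R3.VR

section defs

variable {V : Type}

/-- `m` lies on a geodesic of the graph `X` from `u` to `v` -/
def Btw (X : SimpleGraph V) (u v m : V) : Prop := X.dist u m + X.dist m v = X.dist u v

/-- median graphs: connected graphs in which any three vertices `u, v, w` have exactly one median, a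
vertex lying on geodesics from `u` to `v`, from `v` to `w` and from `u` to `w`; these graphs are the
1-skeleta of the CAT(0) cube complexes -/
structure IsMedian (X : SimpleGraph V) : Prop where
  conn : X.Connected
  med : ∀ u v w : V, ∃! m : V, Btw X u v m ∧ Btw X v w m ∧ Btw X u w m

/-- `x, y, w, z` are the successive corners of a square -/
structure Square (X : SimpleGraph V) (x y w z : V) : Prop where
  xy : X.Adj x y
  yw : X.Adj y w
  wz : X.Adj w z
  zx : X.Adj z x
  ne : x ≠ w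
  ne' : y ≠ z

/-- a set of vertices is convex if it contains all geodesics between its members; these sets are the
vertex sets of the convex subcomplexes -/
def IsConvex (X : SimpleGraph V) (C : Set V) : Prop :=
  ∀ u ∈ C, ∀ v ∈ C, ∀ m, Btw X u v m → m ∈ C

variable {G : Type} [Group G] [MulAction G V]

/-- elementary moves between (oriented) edges: reversal, passage to the opposite side of a square,
translation by an element of `N` -/
inductive Step (X : SimpleGraph V) (N : Subgroup G) : V × V → V × V → Prop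
  | flip (x y : V) : Step X N (x, y) (y, x)
  | sq (x y w z : V) : Square X x y w z → Step X N (x, y) (z, w)
  | act (n : G) (hn : n ∈ N) (x y : V) : Step X N (x, y) (n • x, n • y)

/-- the images of two edges in `X / N` are dual to the same hyperplane of `X / N` -/
def Par (X : SimpleGraph V) (N : Subgroup G) (e f : V × V) : Prop :=
  Relation.EqvGen (Step X N) e f

/-- `N` acts freely on the CAT(0) cube complex with 1-skeleton `X` and the quotient is special: no
hyperplane of the quotient crosses or osculates itself (directly or indirectly), and hyperplanes of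
the quotient which cross do not osculate -/
structure IsSpecialAction (X : SimpleGraph V) (N : Subgroup G) : Prop where
  free : ∀ n ∈ N, ∀ x : V, n • x = x → n = 1
  noself : ∀ x y z : V, X.Adj x y → X.Adj x z → Par X N (x, y) (x, z) → y = z
  nointer : ∀ x y z : V, X.Adj x y → X.Adj x z →
    (∃ p q r o : V, Square X p q r o ∧ Par X N (p, q) (x, y) ∧ Par X N (p, o) (x, z)) →
    ∃ w, Square X x y w z

/-- `H` is a virtual retract of the ambient group -/
def IsVirtualRetract (H : Subgroup G) : Prop :=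
  ∃ K : Subgroup G, K.FiniteIndex ∧ ∃ hHK : H ≤ K, ∃ ρ : K →* H, ∀ h : H, ρ ⟨h, hHK h.2⟩ = h

end defs

/-! ### median graphs -/

section median

variable {V : Type} {X : SimpleGraph V}

theorem adj_one {x y : V} (h : X.Adj x y) : X.dist x y = 1 := SimpleGraph.dist_eq_one_iff_adj.2 h

theorem bip (hX : IsMedian X) (u : V) {x y : V} (h : X.Adj x y) : X.dist u x ≠ X.dist u y := by
  obtain ⟨m, ⟨h1, h2, h3⟩, -⟩ := hX.med u x y
  unfold Btw at h1 h2 h3
  have h4 := adj_one h
  have h5 : X.dist x m = X.dist m x := SimpleGraph.dist_comm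
  omega

theorem dist_step (hX : IsMedian X) (u : V) {x y : V} (h : X.Adj x y) :
    X.dist u y = X.dist u x + 1 ∨ X.dist u x = X.dist u y + 1 := by
  have h1 := bip hX u h
  have h2 : X.dist u y ≤ X.dist u x + X.dist x y := hX.conn.dist_triangle
  have h3 : X.dist u x ≤ X.dist u y + X.dist y x := hX.conn.dist_triangle
  rw [adj_one h] at h2
  rw [adj_one h.symm] at h3
  omega

theorem dist_two (hX : IsMedian X) {x y z : V} (hy : X.Adj x y) (hz : X.Adj x z) (hne : y ≠ z) :
    X.dist y z = 2 := by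
  have h1 : X.dist y z ≤ X.dist y x + X.dist x z := hX.conn.dist_triangle
  rw [adj_one hy.symm, adj_one hz] at h1
  have h2 : X.dist y z ≠ 0 := fun h => hne (hX.conn.dist_eq_zero_iff.1 h)
  have h3 : X.dist y z ≠ 1 := fun h => by
    have h4 := bip hX x (SimpleGraph.dist_eq_one_iff_adj.1 h)
    rw [adj_one hy, adj_one hz] at h4
    exact h4 rfl
  omega

theorem qc (hX : IsMedian X) {u x y z : V} {n : ℕ} (hy : X.Adj x y) (hz : X.Adj x z)
    (hne : y ≠ z) (h1 : X.dist u y = n) (h2 : X.dist u z = n) :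
    ∃ w, X.Adj w y ∧ X.Adj w z ∧ X.dist u w + 1 = n := by
  obtain ⟨m, ⟨h4, h5, h6⟩, -⟩ := hX.med u y z
  unfold Btw at h4 h5 h6
  have h7 := dist_two hX hy hz hne
  have h8 : X.dist y m = X.dist m y := SimpleGraph.dist_comm
  exact ⟨m, SimpleGraph.dist_eq_one_iff_adj.1 (by omega), SimpleGraph.dist_eq_one_iff_adj.1 (by omega),
    by omega⟩

theorem exists_pred (hX : X.Connected) {u x : V} {n : ℕ} (h : X.dist u x = n + 1) :
    ∃ y, X.Adj y x ∧ X.dist u y = n := by
  obtain ⟨p, hp⟩ := hX.exists_walk_length_eq_dist x u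
  rw [SimpleGraph.dist_comm, h] at hp
  cases p with
  | nil => simp at hp
  | @cons _ v _ hv q =>
    refine ⟨v, hv.symm, ?_⟩
    have h1 : X.dist v u ≤ q.length := SimpleGraph.dist_le q
    have h2 : X.dist u x ≤ X.dist u v + X.dist v x := hX.dist_triangle
    rw [adj_one hv.symm, h] at h2
    rw [SimpleGraph.Walk.length_cons] at hp
    rw [SimpleGraph.dist_comm] at h1
    omega

theorem conn_ind (hX : X.Connected) (P : V → Prop) (x0 : V) (h0 : P x0)
    (hs : ∀ x y, X.Adj x y → P x → P y) (y : V) : P y := by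
  obtain ⟨p⟩ := hX.preconnected x0 y
  induction p with
  | nil => exact h0
  | cons h q ih => exact ih (hs _ _ h h0)

end median

/-! ### potentials -/

section pot

variable {V : Type} {X : SimpleGraph V} {M : Type} [Group M]

open Classical in
/-- a neighbour closer to `x0` -/
noncomputable def prd (X : SimpleGraph V) (x0 x : V) : V :=
  if h : ∃ y, X.Adj y x ∧ X.dist x0 y + 1 = X.dist x0 x then h.choose else x

theorem prd_spec (hX : X.Connected) {x0 x : V} {n : ℕ} (h : X.dist x0 x = n + 1) :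
    X.Adj (prd X x0 x) x ∧ X.dist x0 (prd X x0 x) = n := by
  have h1 : ∃ y, X.Adj y x ∧ X.dist x0 y + 1 = X.dist x0 x := by
    obtain ⟨y, hy1, hy2⟩ := exists_pred hX h
    exact ⟨y, hy1, by omega⟩
  have h2 := h1.choose_spec
  unfold prd
  rw [dif_pos h1]
  exact ⟨h2.1, by omega⟩

/-- the potential along chosen geodesics -/
noncomputable def FF (X : SimpleGraph V) (x0 : V) (c : V → V → M) : ℕ → V → M
  | 0, _ => 1
  | n + 1, x => c (prd X x0 x) x * FF X x0 c n (prd X x0 x)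

theorem FF_key (hX : IsMedian X) (x0 : V) (c : V → V → M)
    (hsq : ∀ x y w z, Square X x y w z → c y w * c x y = c z w * c x z) (n : ℕ) :
    ∀ x y, X.dist x0 x = n + 1 → X.Adj y x → X.dist x0 y = n →
      FF X x0 c (n + 1) x = c y x * FF X x0 c n y := by
  induction n with
  | zero =>
    intro x y hx hyx hy
    obtain ⟨h1, h2⟩ := prd_spec hX.conn hx
    have h3 : x0 = y := hX.conn.dist_eq_zero_iff.1 hy
    have h4 : x0 = prd X x0 x := hX.conn.dist_eq_zero_iff.1 h2
    show c (prd X x0 x) x * 1 = c y x * 1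
    rw [← h4, ← h3]
  | succ n ih =>
    intro x y hx hyx hy
    obtain ⟨h1, h2⟩ := prd_spec hX.conn hx
    show c (prd X x0 x) x * FF X x0 c (n + 1) (prd X x0 x) = c y x * FF X x0 c (n + 1) y
    set z := prd X x0 x with hz
    by_cases hyz : y = z
    · rw [hyz]
    · obtain ⟨w, hw1, hw2, hw3⟩ := qc hX hyx.symm h1.symm hyz hy h2
      have hw : X.dist x0 w = n := by omega
      rw [ih y w hy hw1 hw, ih z w h2 hw2 hw, ← mul_assoc, ← mul_assoc]
      have hsquare : Square X w y x z :=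
        ⟨hw1, hyx, h1.symm, hw2.symm, fun h => by rw [h] at hw; omega, hyz⟩
      rw [hsq w y x z hsquare]

theorem exists_pot (hX : IsMedian X) (x0 : V) (c : V → V → M)
    (hinv : ∀ x y, X.Adj x y → c y x * c x y = 1)
    (hsq : ∀ x y w z, Square X x y w z → c y w * c x y = c z w * c x z) :
    ∃ F : V → M, F x0 = 1 ∧ ∀ x y, X.Adj x y → F y = c x y * F x := by
  refine ⟨fun x => FF X x0 c (X.dist x0 x) x, ?_, ?_⟩
  · show FF X x0 c (X.dist x0 x0) x0 = 1
    rw [SimpleGraph.dist_self]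
    rfl
  · intro x y hxy
    show FF X x0 c (X.dist x0 y) y = c x y * FF X x0 c (X.dist x0 x) x
    rcases dist_step hX x0 hxy with h | h
    · rw [h]
      exact FF_key hX x0 c hsq _ y x h hxy rfl
    · rw [h, FF_key hX x0 c hsq _ x y h hxy.symm rfl, ← mul_assoc, hinv y x hxy.symm, one_mul]

end pot

/-! ### the partial involutions -/

section act

variable {V G : Type} [Group G] [MulAction G V] {X : SimpleGraph V} {N : Subgroup G}

theorem Par.refl (e : V × V) : Par X N e e := Relation.EqvGen.refl e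
theorem Par.symm {e f : V × V} (h : Par X N e f) : Par X N f e := Relation.EqvGen.symm _ _ h
theorem Par.trans {e f g : V × V} (h : Par X N e f) (h' : Par X N f g) : Par X N e g :=
  Relation.EqvGen.trans _ _ _ h h'
theorem par_flip (x y : V) : Par X N (x, y) (y, x) := Relation.EqvGen.rel _ _ (Step.flip x y)

theorem Square.rev {x y w z : V} (h : Square X x y w z) : Square X x z w y :=
  ⟨h.zx.symm, h.wz.symm, h.yw.symm, h.xy.symm, h.ne, h.ne'.symm⟩

theorem Square.par {x y w z : V} (h : Square X x y w z) : Par X N (x, y) (z, w) :=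
  Relation.EqvGen.rel _ _ (Step.sq x y w z h)

theorem Square.par' {x y w z : V} (h : Square X x y w z) : Par X N (x, z) (y, w) := h.rev.par

theorem Square.smul (hG : ∀ (g : G) (x y : V), X.Adj x y → X.Adj (g • x) (g • y)) (g : G)
    {x y w z : V} (h : Square X x y w z) : Square X (g • x) (g • y) (g • w) (g • z) :=
  ⟨hG g _ _ h.xy, hG g _ _ h.yw, hG g _ _ h.wz, hG g _ _ h.zx,
    fun e => h.ne (MulAction.injective g e), fun e => h.ne' (MulAction.injective g e)⟩

theorem Par.smul [hNn : N.Normal] (hG : ∀ (g : G) (x y : V), X.Adj x y → X.Adj (g • x) (g • y))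
    (g : G) {e f : V × V} (h : Par X N e f) :
    Par X N (g • e.1, g • e.2) (g • f.1, g • f.2) := by
  induction h with
  | rel e f h =>
    cases h with
    | flip x y => exact par_flip _ _
    | sq x y w z h => exact (h.smul hG g).par
    | act n hn x y =>
      have h1 : g * n * g⁻¹ ∈ N := hNn.conj_mem n hn g
      have h2 := Relation.EqvGen.rel _ _ (Step.act (X := X) (g * n * g⁻¹) h1 (g • x) (g • y))
      have h3 : ∀ v : V, (g * n * g⁻¹) • (g • v) = g • (n • v) := fun v => by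
        rw [mul_smul, inv_smul_smul, mul_smul]
      rw [h3, h3] at h2
      exact h2
  | refl e => exact Par.refl _
  | symm e f _ ih => exact ih.symm
  | trans e f g' _ _ ih1 ih2 => exact ih1.trans ih2

variable (X N) (C : Set V)

open Classical in
/-- move along the edge of `C` parallel to `e`, if there is one -/
noncomputable def mv (e : V × V) (x : C) : C :=
  if h : ∃ y : C, X.Adj (x : V) y ∧ Par X N e ((x : V), (y : V)) then h.choose else x

variable {X N C}

theorem mv_eq (hN : IsSpecialAction X N) {e : V × V} {x y : C} (h1 : X.Adj (x : V) y)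
    (h2 : Par X N e ((x : V), (y : V))) : mv X N C e x = y := by
  have h : ∃ y : C, X.Adj (x : V) y ∧ Par X N e ((x : V), (y : V)) := ⟨y, h1, h2⟩
  have h3 := h.choose_spec
  unfold mv
  rw [dif_pos h]
  exact Subtype.ext (hN.noself _ _ _ h3.1 h1 (h3.2.symm.trans h2))

theorem mv_not {e : V × V} {x : C} (h : ¬ ∃ y : C, X.Adj (x : V) y ∧ Par X N e ((x : V), (y : V))) :
    mv X N C e x = x := by
  unfold mv
  rw [dif_neg h]

theorem mv_invol (hN : IsSpecialAction X N) (e : V × V) : Function.Involutive (mv X N C e) := by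
  intro x
  by_cases h : ∃ y : C, X.Adj (x : V) y ∧ Par X N e ((x : V), (y : V))
  · obtain ⟨y, hy1, hy2⟩ := h
    rw [mv_eq hN hy1 hy2]
    exact mv_eq hN hy1.symm (hy2.trans (par_flip _ _))
  · rw [mv_not h, mv_not h]

theorem mv_congr (hN : IsSpecialAction X N) {e f : V × V} (h : Par X N e f) :
    mv X N C e = mv X N C f := by
  funext x
  by_cases h1 : ∃ y : C, X.Adj (x : V) y ∧ Par X N e ((x : V), (y : V))
  · obtain ⟨y, hy1, hy2⟩ := h1
    rw [mv_eq hN hy1 hy2, mv_eq hN hy1 (h.symm.trans hy2)]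
  · have h2 : ¬ ∃ y : C, X.Adj (x : V) y ∧ Par X N f ((x : V), (y : V)) := by
      rintro ⟨y, hy1, hy2⟩
      exact h1 ⟨y, hy1, h.trans hy2⟩
    rw [mv_not h1, mv_not h2]

theorem corner (hX : IsMedian X) (hN : IsSpecialAction X N) (hC : IsConvex X C) {p q r o : V}
    (hs : Square X p q r o) {x y z : C} (hy : X.Adj (x : V) y) (hz : X.Adj (x : V) z)
    (h1 : Par X N (p, q) ((x : V), (y : V))) (h2 : Par X N (p, o) ((x : V), (z : V))) :
    ∃ w : C, X.Adj (y : V) w ∧ Par X N (p, o) ((y : V), (w : V)) ∧ X.Adj (z : V) w ∧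
      Par X N (p, q) ((z : V), (w : V)) := by
  obtain ⟨w, hw⟩ := hN.nointer x y z hy hz ⟨p, q, r, o, hs, h1, h2⟩
  have hwC : w ∈ C := by
    refine hC y y.2 z z.2 w ?_
    unfold Btw
    rw [dist_two hX hy hz hw.ne', adj_one hw.yw, adj_one hw.wz]
  exact ⟨⟨w, hwC⟩, hw.yw, h2.trans hw.par', hw.wz.symm, h1.trans hw.par⟩

theorem mv_comm (hX : IsMedian X) (hN : IsSpecialAction X N) (hC : IsConvex X C) {p q r o : V}
    (hs : Square X p q r o) (x : C) :
    mv X N C (p, q) (mv X N C (p, o) x) = mv X N C (p, o) (mv X N C (p, q) x) := by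
  by_cases hA : ∃ y : C, X.Adj (x : V) y ∧ Par X N (p, q) ((x : V), (y : V))
  · obtain ⟨y, hy1, hy2⟩ := hA
    by_cases hB : ∃ z : C, X.Adj (x : V) z ∧ Par X N (p, o) ((x : V), (z : V))
    · obtain ⟨z, hz1, hz2⟩ := hB
      obtain ⟨w, hw1, hw2, hw3, hw4⟩ := corner hX hN hC hs hy1 hz1 hy2 hz2
      rw [mv_eq hN hz1 hz2, mv_eq hN hy1 hy2, mv_eq hN hw3 hw4, mv_eq hN hw1 hw2]
    · rw [mv_not hB, mv_eq hN hy1 hy2, mv_not]
      rintro ⟨w, hw1, hw2⟩
      obtain ⟨v, hv1, hv2, -, -⟩ := corner hX hN hC hs hy1.symm hw1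
        (hy2.trans (par_flip _ _)) hw2
      exact hB ⟨v, hv1, hv2⟩
  · by_cases hB : ∃ z : C, X.Adj (x : V) z ∧ Par X N (p, o) ((x : V), (z : V))
    · obtain ⟨z, hz1, hz2⟩ := hB
      rw [mv_not hA, mv_eq hN hz1 hz2, mv_not]
      rintro ⟨w, hw1, hw2⟩
      obtain ⟨v, -, -, hv1, hv2⟩ := corner hX hN hC hs hw1 hz1.symm hw2
        (hz2.trans (par_flip _ _))
      exact hA ⟨v, hv1, hv2⟩
    · rw [mv_not hA, mv_not hB, mv_not hA]

theorem mv_smul [N.Normal] (hG : ∀ (g : G) (x y : V), X.Adj x y → X.Adj (g • x) (g • y))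
    (hN : IsSpecialAction X N) {h : G} (hh : ∀ x ∈ C, h • x ∈ C) (hh' : ∀ x ∈ C, h⁻¹ • x ∈ C)
    (e : V × V) (x : C) :
    mv X N C (h • e.1, h • e.2) ⟨h • (x : V), hh x x.2⟩ =
      ⟨h • (mv X N C e x : V), hh _ (mv X N C e x).2⟩ := by
  by_cases hA : ∃ y : C, X.Adj (x : V) y ∧ Par X N e ((x : V), (y : V))
  · obtain ⟨y, hy1, hy2⟩ := hA
    rw [mv_eq hN hy1 hy2]
    refine mv_eq hN ?_ ?_
    · exact hG h _ _ hy1
    · exact hy2.smul hG h
  · rw [mv_not hA, mv_not]
    rintro ⟨y, hy1, hy2⟩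
    apply hA
    refine ⟨⟨h⁻¹ • (y : V), hh' y y.2⟩, ?_, ?_⟩
    · have h1 := hG h⁻¹ _ _ hy1
      simpa using h1
    · have h1 := hy2.smul hG h⁻¹
      simpa using h1

/-- the permutation of `C` given by an edge -/
noncomputable def sg (hN : IsSpecialAction X N) (C : Set V) (e : V × V) : Equiv.Perm C :=
  (mv_invol (C := C) hN e).toPerm

theorem sg_apply (hN : IsSpecialAction X N) (e : V × V) (x : C) : sg hN C e x = mv X N C e x := rfl

theorem sg_sq (hN : IsSpecialAction X N) (e : V × V) : sg hN C e * sg hN C e = 1 := by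
  ext x
  exact congrArg Subtype.val (mv_invol hN e x)

theorem sg_congr (hN : IsSpecialAction X N) {e f : V × V} (h : Par X N e f) :
    sg hN C e = sg hN C f := by
  apply Equiv.ext
  intro x
  rw [sg_apply, sg_apply, mv_congr hN h]

theorem sg_comm (hX : IsMedian X) (hN : IsSpecialAction X N) (hC : IsConvex X C) {p q r o : V}
    (hs : Square X p q r o) : sg hN C (p, q) * sg hN C (p, o) = sg hN C (p, o) * sg hN C (p, q) :=
  Equiv.ext fun x => mv_comm hX hN hC hs x

end act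

/-! ### the main construction -/

section main

variable {V G : Type} [Group G] [MulAction G V] {X : SimpleGraph V} {N : Subgroup G}

/-- the data -/
structure Dat (X : SimpleGraph V) (N : Subgroup G) (H : Subgroup G) (C : Set V) : Prop where
  hX : IsMedian X
  hG : ∀ (g : G) (x y : V), X.Adj x y → X.Adj (g • x) (g • y)
  hN : IsSpecialAction X N
  hC : IsConvex X C
  hH : ∀ h ∈ H, ∀ x ∈ C, h • x ∈ C

variable {H : Subgroup G} {C : Set V}

theorem Dat.exF [N.Normal] (D : Dat X N H C) (c0 : V) (a : G) : ∃ F : V → Equiv.Perm C, F c0 = 1 ∧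
    ∀ x y, X.Adj x y → F y = sg D.hN C (a • x, a • y) * F x := by
  refine exists_pot D.hX c0 (fun x y => sg D.hN C (a • x, a • y)) ?_ ?_
  · intro x y _
    show sg D.hN C (a • y, a • x) * sg D.hN C (a • x, a • y) = 1
    rw [sg_congr D.hN (par_flip (a • y) (a • x)), sg_sq]
  · intro x y w z hs
    have h := hs.smul D.hG a
    show sg D.hN C (a • y, a • w) * sg D.hN C (a • x, a • y) =
      sg D.hN C (a • z, a • w) * sg D.hN C (a • x, a • z)
    rw [sg_congr D.hN (h.par' (N := N)).symm, sg_congr D.hN (h.par (N := N)).symm]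
    exact (sg_comm D.hX D.hN D.hC h).symm

/-- the twisted developing map -/
noncomputable def Dat.F [N.Normal] (D : Dat X N H C) (c0 : V) (a : G) : V → Equiv.Perm C :=
  (D.exF c0 a).choose

variable [hNn : N.Normal] (D : Dat X N H C) (c0 : V)

include hNn

theorem Dat.F0 (a : G) : D.F c0 a c0 = 1 := (D.exF c0 a).choose_spec.1

theorem Dat.Fs (a : G) {x y : V} (h : X.Adj x y) :
    D.F c0 a y = sg D.hN C (a • x, a • y) * D.F c0 a x := (D.exF c0 a).choose_spec.2 x y h

theorem Dat.F1 {n : G} (hn : n ∈ N) (a : G) (v : V) : D.F c0 (n * a) v = D.F c0 a v := by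
  refine conn_ind D.hX.conn (fun v => D.F c0 (n * a) v = D.F c0 a v) c0 ?_ ?_ v
  · rw [D.F0, D.F0]
  · intro x y hxy ih
    rw [D.Fs c0 _ hxy, D.Fs c0 _ hxy, ih]
    congr 1
    rw [mul_smul, mul_smul]
    exact sg_congr D.hN (Relation.EqvGen.rel _ _ (Step.act n hn _ _)).symm

theorem Dat.F2 (a g : G) (v : V) :
    D.F c0 a (g • v) = D.F c0 (a * g) v * D.F c0 a (g • c0) := by
  refine conn_ind D.hX.conn
    (fun v => D.F c0 a (g • v) = D.F c0 (a * g) v * D.F c0 a (g • c0)) c0 ?_ ?_ v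
  · rw [D.F0, one_mul]
  · intro x y hxy ih
    rw [D.Fs c0 a (D.hG g _ _ hxy), ih, D.Fs c0 (a * g) hxy, mul_smul, mul_smul, mul_assoc]

theorem Dat.F3 {h : G} (hh : h ∈ H) (a : G) (v : V) (x : C) :
    (D.F c0 (h * a) v ⟨h • (x : V), D.hH h hh x x.2⟩ : C) =
      ⟨h • ((D.F c0 a v x : C) : V), D.hH h hh _ (D.F c0 a v x).2⟩ := by
  refine conn_ind D.hX.conn (fun v => (D.F c0 (h * a) v ⟨h • (x : V), D.hH h hh x x.2⟩ : C) =
      ⟨h • ((D.F c0 a v x : C) : V), D.hH h hh _ (D.F c0 a v x).2⟩) c0 ?_ ?_ v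
  · apply Subtype.ext
    simp only [D.F0, Equiv.Perm.one_apply]
  · intro u w huw ih
    have h1 := mv_smul D.hG D.hN (D.hH h hh) (D.hH h⁻¹ (H.inv_mem hh)) (a • u, a • w)
      (D.F c0 a u x)
    rw [D.Fs c0 (h * a) huw, Equiv.Perm.mul_apply, ih, sg_apply, mul_smul, mul_smul, h1]
    apply Subtype.ext
    show h • _ = h • _
    rw [D.Fs c0 a huw, Equiv.Perm.mul_apply, sg_apply]

theorem Dat.F4 (hc0 : c0 ∈ C) (n : ℕ) : ∀ v : C, X.dist c0 v = n →
    D.F c0 1 v ⟨c0, hc0⟩ = v := by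
  induction n with
  | zero =>
    intro v hv
    have h : c0 = v := D.hX.conn.dist_eq_zero_iff.1 hv
    apply Subtype.ext
    rw [← h, D.F0]
    rfl
  | succ n ih =>
    intro v hv
    obtain ⟨y, hy1, hy2⟩ := exists_pred D.hX.conn hv
    have hyC : y ∈ C := by
      refine D.hC c0 hc0 v v.2 y ?_
      unfold Btw
      rw [hy2, adj_one hy1, hv]
    rw [D.Fs c0 1 hy1, Equiv.Perm.mul_apply, ih ⟨y, hyC⟩ hy2, sg_apply, one_smul, one_smul]
    exact mv_eq D.hN hy1 (Par.refl _)

/-- the equivalence relation on `C × G` -/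
def RR (N H : Subgroup G) (C : Set V) (z z' : C × G) : Prop :=
  ∃ h ∈ H, ∃ n ∈ N, ((z'.1 : V) = h • (z.1 : V)) ∧ z'.2 = n * h * z.2

omit hNn in
theorem RR.refl (z : C × G) : RR N H C z z :=
  ⟨1, H.one_mem, 1, N.one_mem, by simp, by simp⟩

theorem RR.symm {z z' : C × G} (h : RR N H C z z') : RR N H C z' z := by
  obtain ⟨h, hh, n, hn, h1, h2⟩ := h
  refine ⟨h⁻¹, H.inv_mem hh, h⁻¹ * n⁻¹ * h, ?_, ?_, ?_⟩
  · simpa using hNn.conj_mem n⁻¹ (N.inv_mem hn) h⁻¹
  · rw [h1, inv_smul_smul]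
  · rw [h2]; group

theorem RR.trans {z z' z'' : C × G} (h : RR N H C z z') (h' : RR N H C z' z'') :
    RR N H C z z'' := by
  obtain ⟨h, hh, n, hn, h1, h2⟩ := h
  obtain ⟨k, hk, m, hm, h3, h4⟩ := h'
  refine ⟨k * h, H.mul_mem hk hh, m * (k * n * k⁻¹), N.mul_mem hm (hNn.conj_mem n hn k), ?_, ?_⟩
  · rw [h3, h1, mul_smul]
  · rw [h4, h2]; group

/-- right translation -/
noncomputable def Dat.rt (z : C × G) (g : G) : C × G := (D.F c0 z.2 (g • c0) z.1, z.2 * g)

theorem Dat.rt_one (z : C × G) : D.rt c0 z 1 = z := by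
  unfold Dat.rt
  rw [one_smul, D.F0, mul_one]
  rfl

theorem Dat.rt_mul (z : C × G) (g g' : G) : D.rt c0 (D.rt c0 z g) g' = D.rt c0 z (g * g') := by
  unfold Dat.rt
  refine Prod.ext ?_ ?_
  · show D.F c0 (z.2 * g) (g' • c0) (D.F c0 z.2 (g • c0) z.1) = D.F c0 z.2 ((g * g') • c0) z.1
    rw [mul_smul, D.F2 c0 z.2 g (g' • c0)]
    rfl
  · exact mul_assoc _ _ _

theorem Dat.rt_RR {z z' : C × G} (h : RR N H C z z') (g : G) :
    RR N H C (D.rt c0 z g) (D.rt c0 z' g) := by
  obtain ⟨h, hh, n, hn, h1, h2⟩ := h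
  refine ⟨h, hh, n, hn, ?_, ?_⟩
  · show ((D.F c0 z'.2 (g • c0) z'.1 : C) : V) = h • ((D.F c0 z.2 (g • c0) z.1 : C) : V)
    have h3 : z'.1 = ⟨h • (z.1 : V), D.hH h hh z.1 z.1.2⟩ := Subtype.ext h1
    rw [h3, h2, mul_assoc, D.F1 c0 hn, D.F3 c0 hh]
  · show z'.2 * g = n * h * (z.2 * g)
    rw [h2, mul_assoc]

/-- the finite index subgroup -/
noncomputable def Dat.K (hc0 : c0 ∈ C) : Subgroup G where
  carrier := {g | RR N H C (⟨c0, hc0⟩, 1) (D.rt c0 (⟨c0, hc0⟩, 1) g)}
  one_mem' := by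
    show RR N H C _ (D.rt c0 _ 1)
    rw [D.rt_one]
    exact RR.refl _
  mul_mem' := by
    intro g g' hg hg'
    show RR N H C _ (D.rt c0 _ (g * g'))
    rw [← D.rt_mul]
    exact RR.trans hg' (D.rt_RR c0 hg g')
  inv_mem' := by
    intro g hg
    have h1 := D.rt_RR c0 hg g⁻¹
    rw [D.rt_mul, mul_inv_cancel, D.rt_one] at h1
    exact h1.symm

theorem Dat.mem_K {hc0 : c0 ∈ C} {g : G} :
    g ∈ D.K c0 hc0 ↔ RR N H C (⟨c0, hc0⟩, 1) (D.rt c0 (⟨c0, hc0⟩, 1) g) := Iff.rfl

/-- the setoid -/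
def RS (N H : Subgroup G) [N.Normal] (C : Set V) : Setoid (C × G) where
  r := RR N H C
  iseqv := ⟨RR.refl, RR.symm, RR.trans⟩

theorem finite_RS [N.FiniteIndex] (D : Dat X N H C) (T : Set V) (hT : T.Finite)
    (hcov : ∀ x ∈ C, ∃ h ∈ H, h • x ∈ T) : Finite (Quotient (RS N H C)) := by
  have hTC : (T ∩ C).Finite := hT.subset Set.inter_subset_left
  have : Finite (T ∩ C : Set V) := hTC
  have : Finite (G ⧸ N) := Subgroup.finite_quotient_of_finiteIndex
  let f : (T ∩ C : Set V) × (G ⧸ N) → Quotient (RS N H C) := fun p =>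
    Quotient.mk _ (⟨p.1, p.1.2.2⟩, p.2.out)
  refine Finite.of_surjective f ?_
  intro q
  induction q using Quotient.ind with
  | _ z =>
    obtain ⟨x, a⟩ := z
    obtain ⟨h, hh, hx⟩ := hcov x x.2
    refine ⟨(⟨h • (x : V), hx, D.hH h hh x x.2⟩, ((h * a : G) : G ⧸ N)), ?_⟩
    refine Quotient.sound ?_
    refine RR.symm (?_ : RR N H C (x, a) _)
    obtain ⟨n, hn⟩ := QuotientGroup.mk_out_eq_mul N (h * a)
    refine ⟨h, hh, (h * a) * n * (h * a)⁻¹, hNn.conj_mem n n.2 (h * a), rfl, ?_⟩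
    show (((h * a : G) : G ⧸ N)).out = _
    rw [hn]
    group

theorem Dat.finK [N.FiniteIndex] (hc0 : c0 ∈ C) (T : Set V) (hT : T.Finite)
    (hcov : ∀ x ∈ C, ∃ h ∈ H, h • x ∈ T) : (D.K c0 hc0).FiniteIndex := by
  have := finite_RS D T hT hcov
  have : Finite (G ⧸ D.K c0 hc0) := by
    refine Finite.of_injective (β := Quotient (RS N H C))
      (fun q => Quotient.mk _ (D.rt c0 (⟨c0, hc0⟩, 1) q.out⁻¹)) ?_
    intro q q' h
    have h1 : RR N H C (D.rt c0 (⟨c0, hc0⟩, 1) q.out⁻¹) (D.rt c0 (⟨c0, hc0⟩, 1) q'.out⁻¹) :=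
      Quotient.exact h
    have h2 := D.rt_RR c0 h1 q'.out
    rw [D.rt_mul, D.rt_mul, inv_mul_cancel, D.rt_one] at h2
    have h3 : q.out⁻¹ * q'.out ∈ D.K c0 hc0 := (D.mem_K c0).2 h2.symm
    rw [← QuotientGroup.out_eq' q, ← QuotientGroup.out_eq' q']
    exact QuotientGroup.eq.2 h3
  exact Subgroup.finiteIndex_of_finite_quotient

theorem uniq (hN : IsSpecialAction X N) {c0 : V} {h h' n n' : G} (hn : n ∈ N) (hn' : n' ∈ N)
    (h1 : h • c0 = h' • c0) (h2 : n * h = n' * h') : h = h' := by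
  have h3 : h' * h⁻¹ ∈ N := by
    have : h' * h⁻¹ = n'⁻¹ * n := by
      rw [eq_inv_mul_iff_mul_eq, ← mul_assoc, ← h2, mul_inv_cancel_right]
    rw [this]
    exact N.mul_mem (N.inv_mem hn') hn
  have h4 : h⁻¹ * h' ∈ N := by
    have h5 := hNn.conj_mem _ h3 h⁻¹
    have h6 : h⁻¹ * (h' * h⁻¹) * h⁻¹⁻¹ = h⁻¹ * h' := by group
    rwa [h6] at h5
  have h7 : (h⁻¹ * h') • c0 = c0 := by rw [mul_smul, ← h1, inv_smul_smul]
  exact inv_mul_eq_one.1 (hN.free _ h4 c0 h7)

theorem main [N.FiniteIndex] (D : Dat X N H C) (hne : C.Nonempty) (T : Set V) (hT : T.Finite)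
    (hcov : ∀ x ∈ C, ∃ h ∈ H, h • x ∈ T) : IsVirtualRetract H := by
  obtain ⟨c0, hc0⟩ := hne
  have hHK : H ≤ D.K c0 hc0 := by
    intro h hh
    refine (D.mem_K c0).2 ⟨h, hh, 1, N.one_mem, ?_, ?_⟩
    · show ((D.F c0 1 (h • c0) ⟨c0, hc0⟩ : C) : V) = h • c0
      exact congrArg Subtype.val (D.F4 c0 hc0 _ ⟨h • c0, D.hH h hh c0 hc0⟩ rfl)
    · show 1 * h = 1 * h * 1
      simp
  have hex : ∀ k : D.K c0 hc0, ∃ h : H, ∃ n ∈ N,
      ((D.F c0 1 ((k : G) • c0) ⟨c0, hc0⟩ : C) : V) = (h : G) • c0 ∧ (k : G) = n * h := by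
    intro k
    obtain ⟨h, hh, n, hn, h1, h2⟩ := (D.mem_K c0).1 k.2
    refine ⟨⟨h, hh⟩, n, hn, h1, ?_⟩
    have h3 : 1 * (k : G) = n * h * 1 := h2
    simpa using h3
  choose ρ m hm h1 h2 using hex
  refine ⟨D.K c0 hc0, D.finK c0 hc0 T hT hcov, hHK, MonoidHom.mk' ρ ?_, ?_⟩
  · intro k k'
    apply Subtype.ext
    have hk := h1 (k * k')
    have hk' : ((D.F c0 1 (((k * k' : D.K c0 hc0) : G) • c0) ⟨c0, hc0⟩ : C) : V) =
        ((ρ k : G) * (ρ k' : G)) • c0 := by
      rw [Subgroup.coe_mul, mul_smul, D.F2 c0 1 (k : G) ((k' : G) • c0), Equiv.Perm.mul_apply,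
        one_mul]
      have e1 : (D.F c0 1 ((k : G) • c0) ⟨c0, hc0⟩ : C) =
          ⟨(ρ k : G) • c0, D.hH _ (ρ k).2 c0 hc0⟩ := Subtype.ext (h1 k)
      have e2 : D.F c0 (k : G) ((k' : G) • c0) = D.F c0 ((ρ k : G) * 1) ((k' : G) • c0) := by
        conv_lhs => rw [h2 k]
        rw [D.F1 c0 (hm k), mul_one]
      have e3 := D.F3 c0 (ρ k).2 1 ((k' : G) • c0) ⟨c0, hc0⟩
      rw [e1]
      show ((D.F c0 (k : G) ((k' : G) • c0) _ : C) : V) = _
      rw [e2, e3]
      show (ρ k : G) • ((D.F c0 1 ((k' : G) • c0) ⟨c0, hc0⟩ : C) : V) = _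
      rw [h1 k', mul_smul]
    have hn2 : m k * ((ρ k : G) * m k' * (ρ k : G)⁻¹) ∈ N :=
      N.mul_mem (hm k) (hNn.conj_mem _ (hm k') _)
    refine uniq D.hN (hm (k * k')) hn2 (hk.symm.trans hk') ?_
    have e5 : ((ρ k * ρ k' : H) : G) = (ρ k : G) * (ρ k' : G) := rfl
    rw [← h2 (k * k'), Subgroup.coe_mul, e5]
    conv_lhs => rw [h2 k, h2 k']
    group
  · intro h
    show ρ ⟨h, hHK h.2⟩ = h
    apply Subtype.ext
    have e1 := h1 ⟨h, hHK h.2⟩
    have e2 := h2 ⟨h, hHK h.2⟩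
    have e3 : ((D.F c0 1 ((h : G) • c0) ⟨c0, hc0⟩ : C) : V) = (h : G) • c0 :=
      congrArg Subtype.val (D.F4 c0 hc0 _ ⟨(h : G) • c0, D.hH h h.2 c0 hc0⟩ rfl)
    refine uniq D.hN (hm ⟨h, hHK h.2⟩) N.one_mem (e1.symm.trans e3) ?_
    rw [← e2, one_mul]

end main

/-! ### subgroups which are not normal -/

section core

variable {V G : Type} [Group G] [MulAction G V] {X : SimpleGraph V} {N : Subgroup G}

theorem Par.mono {N' : Subgroup G} (hle : N' ≤ N) {e f : V × V} (h : Par X N' e f) :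
    Par X N e f := by
  induction h with
  | rel e f h =>
    cases h with
    | flip x y => exact par_flip _ _
    | sq x y w z h => exact h.par
    | act n hn x y => exact Relation.EqvGen.rel _ _ (Step.act n (hle hn) x y)
  | refl e => exact Par.refl _
  | symm e f _ ih => exact ih.symm
  | trans e f g' _ _ ih1 ih2 => exact ih1.trans ih2

theorem IsSpecialAction.mono {N' : Subgroup G} (hN : IsSpecialAction X N) (hle : N' ≤ N) :
    IsSpecialAction X N' where
  free := fun n hn x hx => hN.free n (hle hn) x hx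
  noself := fun x y z hy hz h => hN.noself x y z hy hz (h.mono hle)
  nointer := fun x y z hy hz ⟨p, q, r, o, hs, h1, h2⟩ =>
    hN.nointer x y z hy hz ⟨p, q, r, o, hs, h1.mono hle, h2.mono hle⟩

theorem main' {H : Subgroup G} {C : Set V} [N.FiniteIndex] (D : Dat X N H C) (hne : C.Nonempty)
    (T : Set V) (hT : T.Finite) (hcov : ∀ x ∈ C, ∃ h ∈ H, h • x ∈ T) : IsVirtualRetract H := by
  have D' : Dat X N.normalCore H C := ⟨D.hX, D.hG, D.hN.mono N.normalCore_le, D.hC, D.hH⟩
  exact main D' hne T hT hcov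

end core

end Pool.Agent.H97R3.VR
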