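import Pool.Agent.H97R3.VR.Hull

/-!
# Compact special quotients

From special (in the sense of Haglund and Wise, where hyperplanes may osculate themselves
indirectly) to the stronger form used in the construction.
-/

set_option autoImplicit false

namespace Pool.Agent.H97R3.VR

section defs

variable {V G : Type} [Group G] [MulAction G V]

/-- elementary moves between oriented edges: passage to the opposite side of a square, translation
by an element of `N` -/
inductive OStep (X : SimpleGraph V) (N : Subgroup G) : V × V → V × V → Prop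
  | sq (x y w z : V) : Square X x y w z → OStep X N (x, y) (z, w)
  | act (n : G) (hn : n ∈ N) (x y : V) : OStep X N (x, y) (n • x, n • y)

/-- the images of two oriented edges in `X / N` are dual to the same hyperplane of `X / N` and
cross it in the same direction -/
def OPar (X : SimpleGraph V) (N : Subgroup G) (e f : V × V) : Prop :=
  Relation.EqvGen (OStep X N) e f

/-- `N` acts freely and cocompactly on the CAT(0) cube complex with 1-skeleton `X`, and the quotient
is special in the sense of Haglund and Wise: its hyperplanes are two-sided and there are no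
self-intersections, no direct self-osculations and no inter-osculations -/
structure IsCompactSpecial (X : SimpleGraph V) (N : Subgroup G) : Prop where
  free : ∀ n ∈ N, ∀ x : V, n • x = x → n = 1
  cocompact : ∃ T : Set V, T.Finite ∧ ∀ v : V, ∃ n ∈ N, n • v ∈ T
  twosided : ∀ x y : V, X.Adj x y → ¬ OPar X N (x, y) (y, x)
  nocross : ∀ p q r o : V, Square X p q r o → ¬ Par X N (p, q) (p, o)
  nodirect : ∀ x y z : V, X.Adj x y → X.Adj x z → OPar X N (x, y) (x, z) → y = z
  nointer : ∀ x y z : V, X.Adj x y → X.Adj x z →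
    (∃ p q r o : V, Square X p q r o ∧ Par X N (p, q) (x, y) ∧ Par X N (p, o) (x, z)) →
    ∃ w, Square X x y w z

end defs

section spec

variable {V G : Type} [Group G] [MulAction G V] {X : SimpleGraph V} {N : Subgroup G}

theorem OPar.swap {e f : V × V} (h : OPar X N e f) : OPar X N (e.2, e.1) (f.2, f.1) := by
  induction h with
  | rel e f h =>
    cases h with
    | sq x y w z h => exact Relation.EqvGen.rel _ _ (OStep.sq y x z w h.flip)
    | act n hn x y => exact Relation.EqvGen.rel _ _ (OStep.act n hn y x)
  | refl e => exact Relation.EqvGen.refl _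
  | symm e f _ ih => exact Relation.EqvGen.symm _ _ ih
  | trans e f g' _ _ ih1 ih2 => exact Relation.EqvGen.trans _ _ _ ih1 ih2

theorem par_cases {e f : V × V} (h : Par X N e f) : OPar X N e f ∨ OPar X N e (f.2, f.1) := by
  induction h with
  | rel e f h =>
    cases h with
    | flip x y => exact Or.inr (Relation.EqvGen.refl _)
    | sq x y w z h => exact Or.inl (Relation.EqvGen.rel _ _ (OStep.sq x y w z h))
    | act n hn x y => exact Or.inl (Relation.EqvGen.rel _ _ (OStep.act n hn x y))
  | refl e => exact Or.inl (Relation.EqvGen.refl _)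
  | symm e f _ ih =>
    rcases ih with h | h
    · exact Or.inl (Relation.EqvGen.symm _ _ h)
    · exact Or.inr (Relation.EqvGen.symm _ _ h.swap)
  | trans e f g' _ _ ih1 ih2 =>
    rcases ih1 with h | h <;> rcases ih2 with h' | h'
    · exact Or.inl (Relation.EqvGen.trans _ _ _ h h')
    · exact Or.inr (Relation.EqvGen.trans _ _ _ h h')
    · exact Or.inr (Relation.EqvGen.trans _ _ _ h h'.swap)
    · exact Or.inl (Relation.EqvGen.trans _ _ _ h h'.swap)

theorem OPar.mono {N' : Subgroup G} (hle : N' ≤ N) {e f : V × V} (h : OPar X N' e f) :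
    OPar X N e f := by
  induction h with
  | rel e f h =>
    cases h with
    | sq x y w z h => exact Relation.EqvGen.rel _ _ (OStep.sq x y w z h)
    | act n hn x y => exact Relation.EqvGen.rel _ _ (OStep.act n (hle hn) x y)
  | refl e => exact Relation.EqvGen.refl _
  | symm e f _ ih => exact Relation.EqvGen.symm _ _ ih
  | trans e f g' _ _ ih1 ih2 => exact Relation.EqvGen.trans _ _ _ ih1 ih2

theorem OPar.smul (hG : ∀ (g : G) (x y : V), X.Adj x y → X.Adj (g • x) (g • y)) (g : G)
    {e f : V × V} (h : OPar X (⊥ : Subgroup G) e f) :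
    OPar X (⊥ : Subgroup G) (g • e.1, g • e.2) (g • f.1, g • f.2) := by
  induction h with
  | rel e f h =>
    cases h with
    | sq x y w z h => exact Relation.EqvGen.rel _ _ (OStep.sq _ _ _ _ (h.smul hG g))
    | act n hn x y =>
      rw [Subgroup.mem_bot] at hn
      subst hn
      simp only [one_smul]
      exact Relation.EqvGen.refl _
  | refl e => exact Relation.EqvGen.refl _
  | symm e f _ ih => exact Relation.EqvGen.symm _ _ ih
  | trans e f g' _ _ ih1 ih2 => exact Relation.EqvGen.trans _ _ _ ih1 ih2

theorem OPar.decomp (hG : ∀ (g : G) (x y : V), X.Adj x y → X.Adj (g • x) (g • y)) {e f : V × V}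
    (h : OPar X N e f) : ∃ n ∈ N, OPar X (⊥ : Subgroup G) (n • e.1, n • e.2) f := by
  induction h with
  | rel e f h =>
    cases h with
    | sq x y w z h =>
      refine ⟨1, N.one_mem, ?_⟩
      simp only [one_smul]
      exact Relation.EqvGen.rel _ _ (OStep.sq x y w z h)
    | act n hn x y => exact ⟨n, hn, Relation.EqvGen.refl _⟩
  | refl e =>
    refine ⟨1, N.one_mem, ?_⟩
    simp only [one_smul]
    exact Relation.EqvGen.refl _
  | symm e f _ ih =>
    obtain ⟨n, hn, h⟩ := ih
    refine ⟨n⁻¹, N.inv_mem hn, ?_⟩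
    have h1 := h.smul hG n⁻¹
    simp only [inv_smul_smul] at h1
    exact Relation.EqvGen.symm _ _ h1
  | trans e f g' _ _ ih1 ih2 =>
    obtain ⟨n, hn, h⟩ := ih1
    obtain ⟨m, hm, h'⟩ := ih2
    refine ⟨m * n, N.mul_mem hm hn, ?_⟩
    have h1 := h.smul hG m
    simp only [← mul_smul] at h1
    exact Relation.EqvGen.trans _ _ _ h1 h'

theorem OPar.half (hX : IsMedian X) {e f : V × V} (h : OPar X (⊥ : Subgroup G) e f) :
    (X.Adj e.1 e.2 ↔ X.Adj f.1 f.2) ∧
      (X.Adj e.1 e.2 → ∀ u, Wh X e.1 e.2 u ↔ Wh X f.1 f.2 u) := by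
  induction h with
  | rel e f h =>
    cases h with
    | sq x y w z h =>
      exact ⟨⟨fun _ => h.wz.symm, fun _ => h.xy⟩, fun _ u => sq_half_iff hX h u⟩
    | act n hn x y =>
      rw [Subgroup.mem_bot] at hn
      subst hn
      rw [one_smul, one_smul]
      exact ⟨Iff.rfl, fun _ _ => Iff.rfl⟩
  | refl e => exact ⟨Iff.rfl, fun _ _ => Iff.rfl⟩
  | symm e f _ ih => exact ⟨ih.1.symm, fun h u => (ih.2 (ih.1.2 h) u).symm⟩
  | trans e f g' _ _ ih1 ih2 =>
    exact ⟨ih1.1.trans ih2.1, fun h u => (ih1.2 h u).trans (ih2.2 (ih1.1.1 h) u)⟩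

theorem par_of_opar {e f : V × V} (h : OPar X N e f) : Par X N e f := by
  induction h with
  | rel e f h =>
    cases h with
    | sq x y w z h => exact h.par
    | act n hn x y => exact Relation.EqvGen.rel _ _ (Step.act n hn x y)
  | refl e => exact Par.refl _
  | symm e f _ ih => exact ih.symm
  | trans e f g' _ _ ih1 ih2 => exact ih1.trans ih2

/-- the group of parities -/
abbrev MM (E : Set (V × V)) : Type := E → Multiplicative (ZMod 2)

/-- the nontrivial element -/
def gg : Multiplicative (ZMod 2) := Multiplicative.ofAdd 1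

theorem gg_sq : gg * gg = 1 := by decide
theorem gg_ne : gg ≠ 1 := by decide

open Classical in
/-- the parity vector of an edge -/
noncomputable def cc (X : SimpleGraph V) (N : Subgroup G) (E : Set (V × V)) (x y : V) : MM E :=
  fun e => if Par X N (x, y) e then gg else 1

theorem cc_congr {E : Set (V × V)} {x y x' y' : V} (h : Par X N (x, y) (x', y')) :
    cc X N E x y = cc X N E x' y' := by
  classical
  funext e
  unfold cc
  by_cases h1 : Par X N (x, y) e
  · rw [if_pos h1, if_pos (h.symm.trans h1)]
  · rw [if_neg h1, if_neg (fun h2 => h1 (h.trans h2))]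

theorem cc_sq {E : Set (V × V)} (x y : V) : cc X N E x y * cc X N E x y = 1 := by
  classical
  funext e
  show cc X N E x y e * cc X N E x y e = 1
  unfold cc
  by_cases h1 : Par X N (x, y) e
  · rw [if_pos h1, gg_sq]
  · rw [if_neg h1, one_mul]

theorem exists_F (hX : IsMedian X) (E : Set (V × V)) (x0 : V) : ∃ F : V → MM E, F x0 = 1 ∧
    ∀ x y, X.Adj x y → F y = cc X N E x y * F x := by
  refine exists_pot hX x0 (cc X N E) ?_ ?_
  · intro x y _
    rw [cc_congr (par_flip y x), cc_sq]
  · intro x y w z hs
    rw [cc_congr (hs.par' (N := N)).symm, cc_congr (hs.par (N := N)).symm, mul_comm]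

theorem ladder2 (hX : IsMedian X) (hN : IsCompactSpecial X N) {E : Set (V × V)} {F : V → MM E}
    (hF : ∀ x y, X.Adj x y → F y = cc X N E x y * F x) {x y : V} (hxy : X.Adj x y) (e : E)
    (he : Par X N (x, y) e) (k : ℕ) :
    ∀ a b : V, X.Adj a b → X.dist x a = k → Wh X x y a → Wh X y x b →
      Par X N (a, b) e ∧ F a e = F x e := by
  induction k with
  | zero =>
    intro a b hab hk ha hb
    have h1 : x = a := hX.conn.dist_eq_zero_iff.1 hk
    subst h1
    have h2 := dist_step hX b hxy
    have h3 : X.dist b x = 1 := adj_one hab.symm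
    unfold Wh at hb
    have h4 : X.dist b y = 0 := by omega
    have h5 : b = y := hX.conn.dist_eq_zero_iff.1 h4
    rw [h5]
    exact ⟨he, rfl⟩
  | succ k ih =>
    intro a b hab hk ha hb
    unfold Wh at ha hb
    have e1 : X.dist a x = X.dist x a := SimpleGraph.dist_comm
    have e2 : X.dist b x = X.dist x b := SimpleGraph.dist_comm
    have e3 : X.dist a y = X.dist y a := SimpleGraph.dist_comm
    have e4 : X.dist b y = X.dist y b := SimpleGraph.dist_comm
    have s1 := dist_step hX a hxy
    have s2 := dist_step hX b hxy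
    have s3 := dist_step hX x hab
    have s4 := dist_step hX y hab
    obtain ⟨a', ha1, ha2⟩ := exists_pred hX.conn hk
    have e5 : X.dist a' x = X.dist x a' := SimpleGraph.dist_comm
    have e6 : X.dist a' y = X.dist y a' := SimpleGraph.dist_comm
    have s5 := dist_step hX a' hxy
    have s6 := dist_step hX y ha1
    have hne : a' ≠ b := fun e => by subst e; omega
    obtain ⟨b', hb1, hb2, hb3⟩ := qc hX (u := y) (x := a) (y := a') (z := b) (n := k + 1)
      ha1.symm hab hne (by omega) (by omega)
    have e7 : X.dist b' x = X.dist x b' := SimpleGraph.dist_comm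
    have e8 : X.dist b' y = X.dist y b' := SimpleGraph.dist_comm
    have s7 := dist_step hX b' hxy
    have s8 := dist_step hX x hb2
    have hsq : Square X a' b' b a :=
      ⟨hb1.symm, hb2, hab.symm, ha1.symm, hne, fun e => by rw [e] at hb3; omega⟩
    obtain ⟨p1, p2⟩ := ih a' b' hb1.symm ha2 (by unfold Wh; omega) (by unfold Wh; omega)
    refine ⟨(hsq.par (N := N)).symm.trans p1, ?_⟩
    rw [hF a' a ha1, ← p2]
    show cc X N E a' a e * F a' e = F a' e
    have h6 : ¬ Par X N (a', a) e := fun h => hN.nocross _ _ _ _ hsq (p1.trans h.symm)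
    unfold cc
    rw [if_neg h6, one_mul]

/-- a compact special quotient has a finite cover without indirect self-osculations -/
theorem exists_special (hX : IsMedian X) (hloc : ∀ v, (X.neighborSet v).Finite)
    (hG : ∀ (g : G) (x y : V), X.Adj x y → X.Adj (g • x) (g • y)) [hfi : N.FiniteIndex]
    (hN : IsCompactSpecial X N) : ∃ N' : Subgroup G, N'.FiniteIndex ∧ IsSpecialAction X N' := by
  classical
  obtain ⟨T, hT, hcov⟩ := hN.cocompact
  -- representatives of the edges
  have hE : ∃ E : Set (V × V), E.Finite ∧ ∀ x y, X.Adj x y → ∃ e ∈ E, Par X N (x, y) e := by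
    refine ⟨⋃ t ∈ T, (fun u => (t, u)) '' X.neighborSet t,
      hT.biUnion fun t _ => (hloc t).image _, ?_⟩
    intro x y hxy
    obtain ⟨n, hn, hx⟩ := hcov x
    refine ⟨(n • x, n • y), ?_, Relation.EqvGen.rel _ _ (Step.act n hn x y)⟩
    exact Set.mem_biUnion hx ⟨n • y, hG n x y hxy, rfl⟩
  obtain ⟨E, hEf, hEc⟩ := hE
  have : Finite E := hEf
  obtain ⟨x0⟩ := hX.conn.nonempty
  obtain ⟨F, hF0, hF⟩ := exists_F (N := N) hX E x0
  have hcoc : ∀ n ∈ N, ∀ v, F (n • v) = F v * F (n • x0) := by
    intro n hn v
    refine conn_ind hX.conn (fun v => F (n • v) = F v * F (n • x0)) x0 ?_ ?_ v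
    · rw [hF0, one_mul]
    · intro x y hxy ih
      rw [hF _ _ (hG n x y hxy), ih, hF x y hxy, mul_assoc,
        cc_congr (Relation.EqvGen.rel _ _ (Step.act n hn x y)).symm]
  let θ : N →* MM E :=
    { toFun := fun n => F ((n : G) • x0)
      map_one' := by
        show F (((1 : N) : G) • x0) = 1
        rw [Subgroup.coe_one, one_smul, hF0]
      map_mul' := by
        intro n n'
        show F (((n * n' : N) : G) • x0) = F ((n : G) • x0) * F ((n' : G) • x0)
        rw [Subgroup.coe_mul, mul_smul, hcoc n n.2, mul_comm] }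
  have hle : θ.ker.map N.subtype ≤ N := by
    rintro g ⟨n, -, rfl⟩
    exact n.2
  have hker : ∀ n ∈ θ.ker.map N.subtype, ∀ v, F (n • v) = F v := by
    rintro g ⟨n, hn, rfl⟩ v
    show F ((n : G) • v) = F v
    rw [hcoc _ n.2]
    have : F ((n : G) • x0) = 1 := hn
    show F v * F ((n : G) • x0) = F v
    rw [this, mul_one]
  refine ⟨θ.ker.map N.subtype, ?_, ?_⟩
  · constructor
    rw [Subgroup.index_map_subtype]
    exact mul_ne_zero Subgroup.FiniteIndex.index_ne_zero Subgroup.FiniteIndex.index_ne_zero
  · refine ⟨fun n hn => hN.free n (hle hn), ?_, ?_⟩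
    · intro x y z hxy hxz h
      rcases par_cases h with h1 | h1
      · exact hN.nodirect x y z hxy hxz (h1.mono hle)
      · exfalso
        obtain ⟨n, hn, h2⟩ := h1.decomp hG
        have hadj := hG n x y hxy
        obtain ⟨-, h3⟩ := h2.half hX
        have h4 := h3 hadj
        have h5 : Wh X z x (n • x) := (h4 (n • x)).1 (by
          unfold Wh
          show X.dist (n • x) (n • x) < X.dist (n • x) (n • y)
          rw [SimpleGraph.dist_self, adj_one hadj]
          exact one_pos)
        have h6 : Wh X x z (n • y) := by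
          refine Wh.of_not hX hxz.symm fun hc => ?_
          have h7 := (h4 (n • y)).2 hc
          unfold Wh at h7
          have h8 : X.dist (n • y) (n • y) = 0 := SimpleGraph.dist_self
          have h9 : X.dist (n • y) (n • x) < X.dist (n • y) (n • y) := h7
          omega
        obtain ⟨e, heE, he⟩ := hEc z x hxz.symm
        have h10 := (ladder2 hX hN hF hxz.symm ⟨e, heE⟩ he _ (n • x) (n • y) hadj rfl h5 h6).2
        rw [hker n hn x] at h10
        have h11 : F z ⟨e, heE⟩ = gg * F x ⟨e, heE⟩ := by
          rw [hF x z hxz]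
          show cc X N E x z ⟨e, heE⟩ * F x ⟨e, heE⟩ = _
          unfold cc
          rw [if_pos ((par_flip x z).trans he)]
        rw [h11] at h10
        exact gg_ne (mul_eq_right.1 h10.symm)
    · intro x y z hxy hxz ⟨p, q, r, o, hs, h1, h2⟩
      exact hN.nointer x y z hxy hxz ⟨p, q, r, o, hs, h1.mono hle, h2.mono hle⟩

/-- a subgroup with a quasiconvex orbit is a virtual retract -/
theorem quasiconvex' (hX : IsMedian X) (hloc : ∀ v, (X.neighborSet v).Finite)
    (hG : ∀ (g : G) (x y : V), X.Adj x y → X.Adj (g • x) (g • y)) [N.FiniteIndex]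
    (hN : IsCompactSpecial X N) (H : Subgroup G) (x0 : V) (κ : ℕ)
    (hH : ∀ h ∈ H, ∀ m, Btw X x0 (h • x0) m → ∃ h' ∈ H, X.dist m (h' • x0) ≤ κ) :
    IsVirtualRetract H := by
  obtain ⟨N', h1, h2⟩ := exists_special hX hloc hG hN
  exact quasiconvex hX hloc hG h2 H x0 κ hH

end spec

end Pool.Agent.H97R3.VR
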